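import Mathlib

/-!
# MP_f2c072_co : two-pattern sets minimising consecutive avoidance counts

Answer to Q1: the inequality fails for `k = 6` and `n = 11`.
-/

namespace Pool.Agent.Results.MP_f2c072_co.TwoPatterns

open Finset Equiv

/-- The block of `k` consecutive entries of `s` starting at position `i` (positions are counted
from `0`) has the same relative order as `p`, i.e. its reduction is `p`. -/
def OccursAt {k n : ℕ} (p : Perm (Fin k)) (s : Perm (Fin n)) (i : ℕ) : Prop :=
  ∃ h : i + k ≤ n, ∀ a b : Fin k,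
    s ⟨i + a.1, by omega⟩ < s ⟨i + b.1, by omega⟩ ↔ p a < p b

/-- `alpha B n` is the number of permutations of `n` letters which avoid every pattern of `B`
consecutively. -/
noncomputable def alpha {k : ℕ} (B : Finset (Perm (Fin k))) (n : ℕ) : ℕ :=
  Nat.card {s : Perm (Fin n) // ∀ p ∈ B, ∀ i : ℕ, ¬ OccursAt p s i}

/-- The one-line word of `τ₁ = 1 2 ⋯ (k-2) k (k-1)`, with positions and values counted from
`0`. -/
def word1 (k i : ℕ) : ℕ := if i + 2 = k then k - 1 else if i + 1 = k then k - 2 else i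

/-- The one-line word of `τ₂ = 1 2 ⋯ (k-3) (k-1) k (k-2)`, with positions and values counted
from `0`. -/
def word2 (k i : ℕ) : ℕ :=
  if i + 3 = k then k - 2 else if i + 2 = k then k - 1 else if i + 1 = k then k - 3 else i

/-- The set `B_k = {τ₁, τ₂}`. -/
noncomputable def Bk (k : ℕ) : Finset (Perm (Fin k)) := by
  classical
  exact Finset.univ.filter (fun p => (∀ i : Fin k, (p i : ℕ) = word1 k i) ∨
    (∀ i : Fin k, (p i : ℕ) = word2 k i))

/-! ### the windows of a permutation of 11 letters -/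

/-- the position `i + a` -/
def e (i : Fin 6) : Fin 6 ↪ Fin 11 where
  toFun a := ⟨i.1 + a.1, by omega⟩
  inj' := by
    intro a b h
    apply Fin.ext
    have := congrArg Fin.val h
    simp only at this
    omega

/-- window `i` of `s` has pattern `p` -/
def W (i : Fin 6) (p : Perm (Fin 6)) (s : Perm (Fin 11)) : Prop :=
  ∀ a b : Fin 6, s (e i a) < s (e i b) ↔ p a < p b

instance (i : Fin 6) (p : Perm (Fin 6)) : DecidablePred (W i p) := by
  unfold W; infer_instance

theorem occurs_iff (p : Perm (Fin 6)) (s : Perm (Fin 11)) (i : ℕ) :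
    OccursAt p s i ↔ ∃ h : i < 6, W ⟨i, h⟩ p s := by
  constructor
  · rintro ⟨h, h'⟩
    exact ⟨by omega, h'⟩
  · rintro ⟨h, h'⟩
    exact ⟨by omega, h'⟩

theorem W_inj {i : Fin 6} {p q : Perm (Fin 6)} {s : Perm (Fin 11)} (hp : W i p s)
    (hq : W i q s) : p = q := by
  have h : ∀ a b : Fin 6, p a < p b ↔ q a < q b := fun a b => (hp a b).symm.trans (hq a b)
  have hm : StrictMono (fun r : Fin 6 => q (p.symm r)) := by
    intro r r' hr
    rw [← h]
    simpa using hr
  have hid : (fun r : Fin 6 => q (p.symm r)) = id := by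
    have : (hm.orderIsoOfSurjective _ (q.surjective.comp p.symm.surjective)) =
      OrderIso.refl (Fin 6) := Subsingleton.elim _ _
    funext r
    have h2 := congrArg (fun f : Fin 6 ≃o Fin 6 => f r) this
    simpa using h2
  ext a
  have := congrFun hid (p a)
  simp at this
  rw [this]

theorem W_iff (i : Fin 6) (p : Perm (Fin 6)) (s : Perm (Fin 11)) :
    W i p s ↔ ∀ r : Fin 5, s (e i (p.symm r.castSucc)) < s (e i (p.symm r.succ)) := by
  have h1 : W i p s ↔ StrictMono (fun r : Fin 6 => s (e i (p.symm r))) := by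
    constructor
    · intro h r r' hr
      rw [h]
      simpa using hr
    · intro h a b
      have := h.lt_iff_lt (a := p a) (b := p b)
      simpa using this
  rw [h1]
  exact Fin.strictMono_iff_lt_succ

/-- permuting the positions of window `i` -/
def mv (i : Fin 6) (π : Perm (Fin 6)) : Perm (Fin 11) := π.viaFintypeEmbedding (e i)

theorem mv_apply (i : Fin 6) (π : Perm (Fin 6)) (a : Fin 6) : mv i π (e i a) = e i (π a) :=
  Equiv.Perm.viaFintypeEmbedding_apply_image π (e i) a

theorem mv_fix (i : Fin 6) (π : Perm (Fin 6)) (x : Fin 11) (hx : x ∉ Set.range (e i)) :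
    mv i π x = x :=
  Equiv.Perm.viaFintypeEmbedding_apply_notMem_range π (e i) hx

theorem W_mv (i : Fin 6) (p p' : Perm (Fin 6)) (s : Perm (Fin 11)) :
    W i p' (s * mv i (p⁻¹ * p')) ↔ W i p s := by
  unfold W
  constructor
  · intro h a b
    have := h (p'⁻¹ (p a)) (p'⁻¹ (p b))
    simpa [Perm.mul_apply, mv_apply] using this
  · intro h a b
    simp only [Perm.mul_apply, mv_apply]
    rw [h]
    simp

theorem card_W (i : Fin 6) (p p' : Perm (Fin 6)) :
    (univ.filter (W i p)).card = (univ.filter (W i p')).card := by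
  apply Finset.card_bij' (fun s _ => s * mv i (p⁻¹ * p')) (fun s _ => s * mv i (p'⁻¹ * p))
  · intro s hs
    rw [mem_filter] at hs ⊢
    exact ⟨mem_univ _, (W_mv i p p' s).mpr hs.2⟩
  · intro s hs
    rw [mem_filter] at hs ⊢
    exact ⟨mem_univ _, (W_mv i p' p s).mpr hs.2⟩
  · intro s hs
    ext x
    simp only [Perm.mul_apply]
    by_cases hx : x ∈ Set.range (e i)
    · obtain ⟨a, rfl⟩ := hx
      simp [mv_apply]
    · rw [mv_fix _ _ _ hx, mv_fix _ _ _ hx]
  · intro s hs
    ext x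
    simp only [Perm.mul_apply]
    by_cases hx : x ∈ Set.range (e i)
    · obtain ⟨a, rfl⟩ := hx
      simp [mv_apply]
    · rw [mv_fix _ _ _ hx, mv_fix _ _ _ hx]

/-- the first and the last window -/
def D (p q : Perm (Fin 6)) : Finset (Perm (Fin 11)) :=
  univ.filter (fun s => W 0 p s ∧ W 5 q s)

theorem mv0_fix5 (π : Perm (Fin 6)) (h : π 5 = 5) (b : Fin 6) : mv 0 π (e 5 b) = e 5 b := by
  by_cases hb : b = 0
  · subst hb
    have : e 5 0 = e 0 5 := by decide
    rw [this, mv_apply, h]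
  · apply mv_fix
    rintro ⟨a, ha⟩
    apply hb
    have := congrArg Fin.val ha
    simp [e] at this
    apply Fin.ext
    have ha := a.2
    simp
    omega

theorem mv5_fix0 (π : Perm (Fin 6)) (h : π 0 = 0) (b : Fin 6) : mv 5 π (e 0 b) = e 0 b := by
  by_cases hb : b = 5
  · subst hb
    have : e 0 5 = e 5 0 := by decide
    rw [this, mv_apply, h]
  · apply mv_fix
    rintro ⟨a, ha⟩
    apply hb
    have := congrArg Fin.val ha
    simp [e] at this
    apply Fin.ext
    have ha := b.2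
    simp
    omega

theorem card_D_left (p p' q : Perm (Fin 6)) (h : p 5 = p' 5) : (D p q).card ≤ (D p' q).card := by
  apply Finset.card_le_card_of_injOn (fun s => s * mv 0 (p⁻¹ * p'))
  · intro s hs
    have hs' : s ∈ D p q := hs
    show s * mv 0 (p⁻¹ * p') ∈ D p' q
    rw [D, mem_filter] at hs' ⊢
    refine ⟨mem_univ _, (W_mv 0 p p' s).mpr hs'.2.1, ?_⟩
    have h5 : (p⁻¹ * p') 5 = 5 := by
      rw [Perm.mul_apply, ← h]
      simp
    intro a b
    simp only [Perm.mul_apply, mv0_fix5 _ h5]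
    exact hs'.2.2 a b
  · intro s _ t _ hst
    exact mul_right_cancel hst

theorem card_D_right (p q q' : Perm (Fin 6)) (h : q 0 = q' 0) : (D p q).card ≤ (D p q').card := by
  apply Finset.card_le_card_of_injOn (fun s => s * mv 5 (q⁻¹ * q'))
  · intro s hs
    have hs' : s ∈ D p q := hs
    show s * mv 5 (q⁻¹ * q') ∈ D p q'
    rw [D, mem_filter] at hs' ⊢
    refine ⟨mem_univ _, ?_, (W_mv 5 q q' s).mpr hs'.2.2⟩
    have h5 : (q⁻¹ * q') 0 = 0 := by
      rw [Perm.mul_apply, ← h]
      simp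
    intro a b
    simp only [Perm.mul_apply, mv5_fix0 _ h5]
    exact hs'.2.1 a b
  · intro s _ t _ hst
    exact mul_right_cancel hst

/-- `123465` -/
def t1 : Perm (Fin 6) := ⟨![0, 1, 2, 3, 5, 4], ![0, 1, 2, 3, 5, 4], by decide, by decide⟩
/-- `123564` -/
def t2 : Perm (Fin 6) := ⟨![0, 1, 2, 4, 5, 3], ![0, 1, 2, 5, 3, 4], by decide, by decide⟩
/-- `124365` -/
def u1 : Perm (Fin 6) := ⟨![0, 1, 3, 2, 5, 4], ![0, 1, 3, 2, 5, 4], by decide, by decide⟩
/-- `134265` -/
def u2 : Perm (Fin 6) := ⟨![0, 2, 3, 1, 5, 4], ![0, 3, 1, 2, 5, 4], by decide, by decide⟩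

/-- an explicit permutation with first window `123564` and last window `123465` -/
def s0 : Perm (Fin 11) :=
  ⟨![0, 1, 2, 5, 6, 3, 4, 7, 8, 10, 9], ![0, 1, 2, 5, 6, 3, 4, 7, 8, 10, 9],
    by decide, by decide⟩

/-- exchanging positions 3 and 5 -/
def w0 : Perm (Fin 11) := Equiv.swap 3 5

theorem w0_3 : w0 3 = 5 := Equiv.swap_apply_left _ _
theorem w0_5 : w0 5 = 3 := Equiv.swap_apply_right _ _
theorem w0_of {x : Fin 11} (h3 : x ≠ 3) (h5 : x ≠ 5) : w0 x = x :=
  Equiv.swap_apply_of_ne_of_ne h3 h5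

theorem D_lt : (D t1 t1).card < (D t2 t1).card := by
  have himg : (D t1 t1).image (fun s => s * w0) ⊆ (D t2 t1).erase s0 := by
    intro s' hs'
    obtain ⟨s, hs, rfl⟩ := mem_image.mp hs'
    rw [D, mem_filter, W_iff, W_iff] at hs
    obtain ⟨-, h0, h5⟩ := hs
    have a0 : s 0 < s 1 := h0 0
    have a1 : s 1 < s 2 := h0 1
    have a2 : s 2 < s 3 := h0 2
    have a3 : s 3 < s 5 := h0 3
    have a4 : s 5 < s 4 := h0 4
    have b0 : s 5 < s 6 := h5 0
    have b1 : s 6 < s 7 := h5 1
    have b2 : s 7 < s 8 := h5 2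
    have b3 : s 8 < s 10 := h5 3
    have b4 : s 10 < s 9 := h5 4
    rw [mem_erase]
    constructor
    · intro h
      have h3 : (s * w0 : Perm (Fin 11)) 3 = s0 3 := by rw [h]
      have h6 : (s * w0 : Perm (Fin 11)) 6 = s0 6 := by rw [h]
      have e3 : (s * w0 : Perm (Fin 11)) 3 = s 5 := by
        rw [Perm.mul_apply, w0_3]
      have e6 : (s * w0 : Perm (Fin 11)) 6 = s 6 := by
        rw [Perm.mul_apply, w0_of (by decide) (by decide)]
      rw [e3] at h3
      rw [e6] at h6
      rw [h3, h6] at b0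
      revert b0
      decide
    · rw [D, mem_filter, W_iff, W_iff]
      have f : ∀ x : Fin 11, x ≠ 3 → x ≠ 5 → (s * w0 : Perm (Fin 11)) x = s x := by
        intro x hx3 hx5
        rw [Perm.mul_apply, w0_of hx3 hx5]
      have f3 : (s * w0 : Perm (Fin 11)) 3 = s 5 := by
        rw [Perm.mul_apply, w0_3]
      have f5 : (s * w0 : Perm (Fin 11)) 5 = s 3 := by
        rw [Perm.mul_apply, w0_5]
      refine ⟨mem_univ _, ?_, ?_⟩
      · intro r
        fin_cases r
        · show (s * w0 : Perm (Fin 11)) 0 < (s * w0 : Perm (Fin 11)) 1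
          rw [f 0 (by decide) (by decide), f 1 (by decide) (by decide)]; exact a0
        · show (s * w0 : Perm (Fin 11)) 1 < (s * w0 : Perm (Fin 11)) 2
          rw [f 1 (by decide) (by decide), f 2 (by decide) (by decide)]; exact a1
        · show (s * w0 : Perm (Fin 11)) 2 < (s * w0 : Perm (Fin 11)) 5
          rw [f 2 (by decide) (by decide), f5]; exact a2
        · show (s * w0 : Perm (Fin 11)) 5 < (s * w0 : Perm (Fin 11)) 3
          rw [f5, f3]; exact a3
        · show (s * w0 : Perm (Fin 11)) 3 < (s * w0 : Perm (Fin 11)) 4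
          rw [f3, f 4 (by decide) (by decide)]; exact a4
      · intro r
        fin_cases r
        · show (s * w0 : Perm (Fin 11)) 5 < (s * w0 : Perm (Fin 11)) 6
          rw [f5, f 6 (by decide) (by decide)]; exact a3.trans b0
        · show (s * w0 : Perm (Fin 11)) 6 < (s * w0 : Perm (Fin 11)) 7
          rw [f 6 (by decide) (by decide), f 7 (by decide) (by decide)]; exact b1
        · show (s * w0 : Perm (Fin 11)) 7 < (s * w0 : Perm (Fin 11)) 8
          rw [f 7 (by decide) (by decide), f 8 (by decide) (by decide)]; exact b2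
        · show (s * w0 : Perm (Fin 11)) 8 < (s * w0 : Perm (Fin 11)) 10
          rw [f 8 (by decide) (by decide), f 10 (by decide) (by decide)]; exact b3
        · show (s * w0 : Perm (Fin 11)) 10 < (s * w0 : Perm (Fin 11)) 9
          rw [f 10 (by decide) (by decide), f 9 (by decide) (by decide)]; exact b4
  have hs0 : s0 ∈ D t2 t1 := by
    rw [D, mem_filter, W_iff, W_iff]
    refine ⟨mem_univ _, by decide, by decide⟩
  have h1 := card_le_card himg
  rw [card_image_of_injective _ (mul_left_injective _), card_erase_of_mem hs0] at h1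
  have h2 : 0 < (D t2 t1).card := card_pos.mpr ⟨s0, hs0⟩
  omega

/-- the permutations with a window in `B` at position `i` -/
def E (B : Finset (Perm (Fin 6))) (i : Fin 6) : Finset (Perm (Fin 11)) :=
  B.biUnion (fun p => univ.filter (W i p))

/-- the number of permutations having `t1` as window `i` -/
def cW (i : Fin 6) : ℕ := (univ.filter (W i t1)).card

theorem card_E (B : Finset (Perm (Fin 6))) (i : Fin 6) :
    (E B i).card = B.card * cW i := by
  rw [E, card_biUnion]
  · rw [Finset.sum_congr rfl (fun p _ => card_W i p t1), sum_const, smul_eq_mul, cW]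
  · intro p _ q _ hpq
    rw [Function.onFun, disjoint_left]
    intro s hs hs'
    rw [mem_filter] at hs hs'
    exact hpq (W_inj hs.2 hs'.2)

theorem E_inter (B : Finset (Perm (Fin 6))) :
    E B 0 ∩ E B 5 = (B ×ˢ B).biUnion (fun pq => D pq.1 pq.2) := by
  ext s
  simp only [E, D, mem_inter, mem_biUnion, mem_filter, mem_univ, true_and, mem_product]
  constructor
  · rintro ⟨⟨p, hp, hp'⟩, ⟨q, hq, hq'⟩⟩
    exact ⟨(p, q), ⟨hp, hq⟩, hp', hq'⟩
  · rintro ⟨⟨p, q⟩, ⟨hp, hq⟩, hp', hq'⟩
    exact ⟨⟨p, hp, hp'⟩, ⟨q, hq, hq'⟩⟩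

theorem card_E_inter (B : Finset (Perm (Fin 6))) :
    (E B 0 ∩ E B 5).card = ∑ pq ∈ B ×ˢ B, (D pq.1 pq.2).card := by
  rw [E_inter, card_biUnion]
  intro pq _ rs _ hne
  rw [Function.onFun, disjoint_left]
  intro s hs hs'
  rw [D, mem_filter] at hs hs'
  apply hne
  exact Prod.ext (W_inj hs.2.1 hs'.2.1) (W_inj hs.2.2 hs'.2.2)

/-- the permutations which do not avoid `B` -/
def A (B : Finset (Perm (Fin 6))) : Finset (Perm (Fin 11)) := univ.biUnion (E B)

theorem mem_A (B : Finset (Perm (Fin 6))) (s : Perm (Fin 11)) :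
    s ∈ A B ↔ ∃ p ∈ B, ∃ i : ℕ, OccursAt p s i := by
  simp only [A, E, mem_biUnion, mem_filter, mem_univ, true_and]
  constructor
  · rintro ⟨i, p, hp, hW⟩
    exact ⟨p, hp, i.1, (occurs_iff p s i.1).mpr ⟨i.2, hW⟩⟩
  · rintro ⟨p, hp, i, hi⟩
    obtain ⟨h, hW⟩ := (occurs_iff p s i).mp hi
    exact ⟨⟨i, h⟩, p, hp, hW⟩

theorem alpha_eq (B : Finset (Perm (Fin 6))) :
    alpha B 11 + (A B).card = Fintype.card (Perm (Fin 11)) := by
  have h1 : alpha B 11 = ((A B)ᶜ).card := by
    unfold alpha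
    apply Nat.subtype_card
    intro s
    rw [mem_compl, mem_A]
    push Not
    rfl
  rw [h1]
  exact Finset.card_compl_add_card (A B)

theorem A_split (B : Finset (Perm (Fin 6))) :
    A B = (({1, 2, 3, 4} : Finset (Fin 6)).biUnion (E B)) ∪ (E B 0 ∪ E B 5) := by
  have h : (univ : Finset (Fin 6)) = {1, 2, 3, 4} ∪ {0, 5} := by decide
  rw [A, h, Finset.union_biUnion]
  congr 1
  simp

theorem sum4 (f : Fin 6 → ℕ) :
    ∑ i ∈ ({1, 2, 3, 4} : Finset (Fin 6)), f i = f 1 + (f 2 + (f 3 + f 4)) := by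
  rw [Finset.sum_insert (by decide), Finset.sum_insert (by decide),
    Finset.sum_insert (by decide), Finset.sum_singleton]

theorem A_upper (B : Finset (Perm (Fin 6))) :
    (A B).card + (E B 0 ∩ E B 5).card ≤
      B.card * (cW 0 + cW 5 + (cW 1 + (cW 2 + (cW 3 + cW 4)))) := by
  have h1 : (A B).card ≤ (({1, 2, 3, 4} : Finset (Fin 6)).biUnion (E B)).card +
      (E B 0 ∪ E B 5).card := by
    rw [A_split]; exact card_union_le _ _
  have h2 : (({1, 2, 3, 4} : Finset (Fin 6)).biUnion (E B)).card ≤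
      ∑ i ∈ ({1, 2, 3, 4} : Finset (Fin 6)), (E B i).card := card_biUnion_le
  have h3 := card_union_add_card_inter (E B 0) (E B 5)
  rw [sum4, card_E, card_E, card_E, card_E] at h2
  rw [card_E B 0, card_E B 5] at h3
  rw [mul_add, mul_add, mul_add, mul_add, mul_add]
  omega

/-- a suffix of `p` starting at position `d` and a prefix of `q` have different patterns -/
def noOv (p q : Perm (Fin 6)) (d : ℕ) : Prop :=
  ∃ a b : Fin 6, ∃ ha : a.1 + d < 6, ∃ hb : b.1 + d < 6,
    ¬ (p ⟨a.1 + d, ha⟩ < p ⟨b.1 + d, hb⟩ ↔ q a < q b)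

theorem noOv_spec {p q : Perm (Fin 6)} {d : ℕ} (h : noOv p q d) {i j : Fin 6}
    (hij : j.1 = i.1 + d) {s : Perm (Fin 11)} (hi : W i p s) (hj : W j q s) : False := by
  obtain ⟨a, b, ha, hb, h⟩ := h
  apply h
  have ea : e j a = e i ⟨a.1 + d, ha⟩ := by
    apply Fin.ext
    show j.1 + a.1 = i.1 + (a.1 + d)
    omega
  have eb : e j b = e i ⟨b.1 + d, hb⟩ := by
    apply Fin.ext
    show j.1 + b.1 = i.1 + (b.1 + d)
    omega
  have h1 := hi ⟨a.1 + d, ha⟩ ⟨b.1 + d, hb⟩
  have h2 := hj a b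
  rw [ea, eb] at h2
  exact h1.symm.trans h2

theorem E_disj {B : Finset (Perm (Fin 6))}
    (hB : ∀ p ∈ B, ∀ q ∈ B, ∀ d : ℕ, 0 < d → d < 5 → noOv p q d) {i j : Fin 6}
    (hij : i.1 < j.1) (hij' : j.1 < i.1 + 5) : Disjoint (E B i) (E B j) := by
  rw [disjoint_left]
  intro s hs hs'
  simp only [E, mem_biUnion, mem_filter, mem_univ, true_and] at hs hs'
  obtain ⟨p, hp, hp'⟩ := hs
  obtain ⟨q, hq, hq'⟩ := hs'
  exact noOv_spec (hB p hp q hq (j.1 - i.1) (by omega) (by omega)) (i := i) (j := j)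
    (by omega) hp' hq'

theorem A_lower {B : Finset (Perm (Fin 6))}
    (hB : ∀ p ∈ B, ∀ q ∈ B, ∀ d : ℕ, 0 < d → d < 5 → noOv p q d) :
    B.card * (cW 0 + cW 5 + (cW 1 + (cW 2 + (cW 3 + cW 4)))) =
      (A B).card + (E B 0 ∩ E B 5).card := by
  have hd : ∀ i j : Fin 6, i ≠ j → i.1 < j.1 + 5 → j.1 < i.1 + 5 → Disjoint (E B i) (E B j) := by
    intro i j hij h1 h2
    rcases lt_or_gt_of_ne (fun h => hij (Fin.ext h) : i.1 ≠ j.1) with h | h
    · exact E_disj hB h h2
    · exact (E_disj hB h h1).symm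
  have h1 : (A B).card = (({1, 2, 3, 4} : Finset (Fin 6)).biUnion (E B)).card +
      (E B 0 ∪ E B 5).card := by
    rw [A_split]
    apply card_union_of_disjoint
    rw [disjoint_union_right, disjoint_biUnion_left, disjoint_biUnion_left]
    constructor
    · intro i hi
      have : i ≠ 0 ∧ i.1 < 5 := by revert i; decide
      exact hd i 0 this.1 (by simpa using this.2) (by simp)
    · intro i hi
      have : i ≠ 5 ∧ 0 < i.1 := by revert i; decide
      exact hd i 5 this.1 (by have := i.2; simp; omega) (by simp; omega)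
  have h2 : (({1, 2, 3, 4} : Finset (Fin 6)).biUnion (E B)).card =
      ∑ i ∈ ({1, 2, 3, 4} : Finset (Fin 6)), (E B i).card := by
    apply card_biUnion
    intro i hi j hj hij
    have hi' : 0 < i.1 ∧ i.1 < 5 := by
      clear hij hj; revert i; decide
    have hj' : 0 < j.1 ∧ j.1 < 5 := by
      clear hij hi'; revert j; decide
    exact hd i j hij (by omega) (by omega)
  have h3 := card_union_add_card_inter (E B 0) (E B 5)
  rw [sum4, card_E, card_E, card_E, card_E] at h2
  rw [card_E B 0, card_E B 5] at h3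
  rw [mul_add, mul_add, mul_add, mul_add, mul_add]
  omega

theorem Bk_six : Bk 6 = {t1, t2} := by
  classical
  ext p
  unfold Bk
  rw [mem_filter, mem_insert, mem_singleton]
  have k1 : (∀ i : Fin 6, (p i : ℕ) = word1 6 i) ↔ p = t1 := by
    constructor
    · intro h
      apply Equiv.ext
      intro i
      apply Fin.ext
      rw [h i]
      revert i
      decide
    · rintro rfl
      decide
  have k2 : (∀ i : Fin 6, (p i : ℕ) = word2 6 i) ↔ p = t2 := by
    constructor
    · intro h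
      apply Equiv.ext
      intro i
      apply Fin.ext
      rw [h i]
      revert i
      decide
    · rintro rfl
      decide
  rw [k1, k2]
  simp

theorem t_ne : t1 ≠ t2 := by decide
theorem u_ne : u1 ≠ u2 := by decide

theorem alpha_lt {B B' : Finset (Perm (Fin 6))} (h : (A B).card < (A B').card) :
    alpha B' 11 < alpha B 11 := by
  have e1 := (alpha_eq B').trans (alpha_eq B).symm
  generalize (A B).card = x at *
  generalize (A B').card = y at *
  generalize alpha B 11 = z at *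
  generalize alpha B' 11 = w at *
  omega

/-- the number of elements of `D p q` -/
def cD (p q : Perm (Fin 6)) : ℕ := (D p q).card

theorem card_E_inter' (B : Finset (Perm (Fin 6))) :
    (E B 0 ∩ E B 5).card = ∑ pq ∈ B ×ˢ B, cD pq.1 pq.2 := card_E_inter B

theorem sum_le4 {α : Type*} (S : Finset α) (f : α → ℕ) (N : ℕ) (hS : S.card = 4)
    (h : ∀ x ∈ S, f x ≤ N) : ∑ x ∈ S, f x ≤ 4 * N := by
  rw [← hS, ← smul_eq_mul]
  exact Finset.sum_le_card_nsmul S f N h

theorem first_eq {p : Perm (Fin 6)} (h : p ∈ ({u1, u2} : Finset (Perm (Fin 6)))) :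
    p 5 = t1 5 ∧ p 0 = t1 0 := by
  rw [mem_insert, mem_singleton] at h
  rcases h with rfl | rfl <;> decide

theorem D_le_u {pq : Perm (Fin 6) × Perm (Fin 6)}
    (hpq : pq ∈ ({u1, u2} : Finset (Perm (Fin 6))) ×ˢ ({u1, u2} : Finset (Perm (Fin 6)))) :
    cD pq.1 pq.2 ≤ cD t1 t1 := by
  rw [mem_product] at hpq
  exact le_trans (card_D_left pq.1 t1 pq.2 (first_eq hpq.1).1)
    (card_D_right t1 pq.2 t1 (first_eq hpq.2).2)

theorem prod4 : (({u1, u2} : Finset (Perm (Fin 6))) ×ˢ ({u1, u2} : Finset (Perm (Fin 6)))).card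
    = 4 := by
  rw [card_product, card_pair u_ne]

theorem hN1 : (E {u1, u2} 0 ∩ E {u1, u2} 5).card ≤ 4 * cD t1 t1 := by
  rw [card_E_inter']
  exact sum_le4 _ (fun pq : Perm (Fin 6) × Perm (Fin 6) => cD pq.1 pq.2) _ prod4
    (fun _ h => D_le_u h)

theorem arith1 {a b c d : ℕ} (h1 : a ≤ b) (h2 : c ≤ d) (h3 : a < c) :
    4 * a < a + b + (c + d) := by omega

theorem sum_pp {α : Type*} [DecidableEq α] {a b : α} (h : a ≠ b) (f : α → α → ℕ) :
    ∑ pq ∈ ({a, b} : Finset α) ×ˢ ({a, b} : Finset α), f pq.1 pq.2 =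
      f a a + f a b + (f b a + f b b) := by
  rw [Finset.sum_product, Finset.sum_pair h, Finset.sum_pair h, Finset.sum_pair h]

theorem hN2' : 4 * cD t1 t1 < cD t1 t1 + cD t1 t2 + (cD t2 t1 + cD t2 t2) :=
  arith1 (card_D_right t1 t1 t2 (by decide)) (card_D_right t2 t1 t2 (by decide)) D_lt

theorem hN2 : 4 * cD t1 t1 < (E {t1, t2} 0 ∩ E {t1, t2} 5).card := by
  rw [card_E_inter', sum_pp t_ne cD]
  exact hN2'

theorem noOv_u : ∀ p ∈ ({u1, u2} : Finset (Perm (Fin 6))), ∀ q ∈ ({u1, u2} : Finset (Perm (Fin 6))),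
    ∀ d : ℕ, 0 < d → d < 5 → noOv p q d := by
  intro p hp q hq d hd hd'
  rw [mem_insert, mem_singleton] at hp hq
  obtain rfl | rfl | rfl | rfl : d = 1 ∨ d = 2 ∨ d = 3 ∨ d = 4 := by omega
  · refine ⟨3, 4, by decide, by decide, ?_⟩
    rcases hp with rfl | rfl <;> rcases hq with rfl | rfl <;> decide
  · refine ⟨0, 1, by decide, by decide, ?_⟩
    rcases hp with rfl | rfl <;> rcases hq with rfl | rfl <;> decide
  · refine ⟨1, 2, by decide, by decide, ?_⟩
    rcases hp with rfl | rfl <;> rcases hq with rfl | rfl <;> decide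
  · refine ⟨0, 1, by decide, by decide, ?_⟩
    rcases hp with rfl | rfl <;> rcases hq with rfl | rfl <;> decide

theorem arith2 {a b n1 n2 N T : ℕ} (h1 : n1 ≤ 4 * N) (h2 : 4 * N < n2) (h3 : a + n2 ≤ T)
    (h4 : T = b + n1) : a < b := by omega

theorem main : alpha ({u1, u2} : Finset (Perm (Fin 6))) 11 < alpha (Bk 6) 11 := by
  rw [Bk_six]
  apply alpha_lt
  have hU := A_upper {t1, t2}
  have hL := A_lower noOv_u
  rw [card_pair t_ne] at hU
  rw [card_pair u_ne] at hL
  exact arith2 hN1 hN2 hU hL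

/-- **Answer to Q1: the inequality fails.**  The two-element set
`B' = {124365, 134265}` satisfies `α_{B'}(11) < α_{B_6}(11)`.  Hence it is not true that
`α_{B'}(n) ≥ α_{B_k}(n)` for all `k ≥ 3`, all two-element `B' ⊆ S_k` and all `n ≥ 1`. -/
theorem result :
    (∃ B' : Finset (Perm (Fin 6)), B'.card = 2 ∧ alpha B' 11 < alpha (Bk 6) 11) ∧
    ¬ ∀ k : ℕ, 3 ≤ k → ∀ B' : Finset (Perm (Fin k)), B'.card = 2 → ∀ n : ℕ, 1 ≤ n →
      alpha (Bk k) n ≤ alpha B' n := by
  refine ⟨⟨{u1, u2}, card_pair u_ne, main⟩, fun h => ?_⟩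
  exact not_le.mpr main (h 6 (by norm_num) _ (card_pair u_ne) 11 (by norm_num))

end Pool.Agent.Results.MP_f2c072_co.TwoPatterns
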